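import Mathlib

namespace Pool.Agent.H.MP_6a5936_nt.A

open Polynomial Finset

theorem base0 {p : ℕ} (hp : p.Prime) (k : ℕ) : ∃ v z : ℤ[X], (1 + X : ℤ[X]) ^ (p ^ k * p) - 1 =
    X ^ (p ^ k * p) + (p : ℤ[X]) * (X ^ p ^ k * (1 + X * v) + (p : ℤ[X]) * X * z) := by
  obtain ⟨g, hg⟩ := exists_add_pow_prime_pow_eq hp (1 : ℤ[X]) X k
  obtain ⟨σ, hσ⟩ := exists_add_pow_prime_eq hp (1 : ℤ[X]) X
  obtain ⟨τ, hτ⟩ : X ∣ σ - 1 := by
    have := congrArg (coeff · 1) hσ
    simp only [coeff_one_add_X_pow, Nat.choose_one_right, one_pow, mul_one, coeff_add, coeff_one,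
      coeff_X_pow, mul_assoc, coeff_natCast_mul, coeff_X_mul, if_neg hp.one_lt.ne,
      if_neg one_ne_zero, zero_add] at this
    rw [X_dvd_iff, coeff_sub, coeff_one_zero, sub_eq_zero]
    exact mul_left_cancel₀ (show (p : ℤ) ≠ 0 by exact_mod_cast hp.ne_zero) (by linarith)
  rw [sub_eq_iff_eq_add'.1 hτ] at hσ
  have h1 := congrArg (expand ℤ (p ^ k)) hσ
  simp only [map_pow, map_add, map_mul, map_one, expand_X, map_natCast] at h1
  obtain ⟨ρ, hρ⟩ := exists_add_pow_prime_eq hp (1 + X ^ p ^ k : ℤ[X]) ((p : ℤ[X]) * 1 * X * g)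
  obtain ⟨d, rfl⟩ := Nat.exists_eq_add_of_le' hp.two_le
  obtain ⟨c, hc⟩ := Nat.exists_eq_add_of_le' (Nat.one_le_pow k _ hp.pos)
  refine ⟨X ^ c * expand ℤ ((d + 2) ^ k) τ, (((d + 2 : ℕ) : ℤ[X]) * X * g) ^ d * X * g ^ 2 +
    (1 + X ^ (d + 2) ^ k) * g * ρ, ?_⟩
  rw [pow_mul, hg, one_pow, hρ, h1, pow_mul]
  have : (X : ℤ[X]) ^ (d + 2) ^ k = X * X ^ c := by rw [hc, pow_succ']
  generalize ((d + 2 : ℕ) : ℤ[X]) = P
  rw [pow_add (P * 1 * X * g), mul_one P]
  linear_combination (P * X ^ (d + 2) ^ k * expand ℤ ((d + 2) ^ k) τ) * this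

theorem geo0 {p : ℕ} (hp : p.Prime) (k : ℕ) : ∃ h : ℤ[X], (X : ℤ[X]) ^ (p ^ k * p - 1) =
    ∑ i ∈ range (p ^ k * p), (1 + X) ^ i + (p : ℤ[X]) * h := by
  obtain ⟨v, z, h⟩ := base0 hp k
  obtain ⟨c, hc⟩ := Nat.exists_eq_add_of_le' (Nat.one_le_pow k _ hp.pos)
  obtain ⟨e, he⟩ := Nat.exists_eq_add_of_le' (Nat.mul_pos (Nat.one_le_pow k _ hp.pos) hp.pos)
  refine ⟨-(X ^ c * (1 + X * v) + (p : ℤ[X]) * z), mul_left_cancel₀ X_ne_zero ?_⟩
  have := mul_geom_sum (1 + X : ℤ[X]) (p ^ k * p)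
  rw [h, hc] at this
  rw [hc] at he
  rw [hc]
  rw [he] at this ⊢
  simp only [Nat.succ_eq_add_one, zero_add, Nat.add_sub_cancel] at this ⊢
  linear_combination -this

variable {R : Type} [CommRing R] (x : R)

theorem base {p : ℕ} (hp : p.Prime) (k : ℕ) : ∃ v z : R, (1 + x) ^ (p ^ k * p) - 1 =
    x ^ (p ^ k * p) + p * (x ^ p ^ k * (1 + x * v) + p * x * z) := by
  obtain ⟨v, z, h⟩ := base0 hp k
  exact ⟨aeval x v, aeval x z, by simpa using congrArg (aeval x) h⟩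

theorem geo {p : ℕ} (hp : p.Prime) (k : ℕ) : ∃ h : R, x ^ (p ^ k * p - 1) =
    ∑ i ∈ range (p ^ k * p), (1 + x) ^ i + p * h := by
  obtain ⟨v, h⟩ := geo0 hp k
  exact ⟨aeval x v, by simpa using congrArg (aeval x) h⟩

theorem inv {p : ℕ} (hp : p.Prime) (k j : ℕ) : ∃ v z c : R, x ^ (p ^ k * (j * (p - 1) + 1)) =
    (-p) ^ j * (x ^ p ^ k * (1 + x * v) + p * x * z) + c * ((1 + x) ^ (p ^ k * p) - 1) := by
  obtain ⟨v, z, h⟩ := base x hp k
  obtain ⟨d, rfl⟩ := Nat.exists_eq_add_of_le' hp.two_le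
  generalize ((d + 2 : ℕ) : R) = P at h ⊢
  generalize (1 + x) ^ ((d + 2) ^ k * (d + 2)) - 1 = Y at h ⊢
  simp only [pow_mul] at h ⊢
  generalize x ^ (d + 2) ^ k = r at h ⊢
  rw [show d + 2 - 1 = d + 1 from rfl]
  induction j with
  | zero => exact ⟨0, 0, 0, by simp⟩
  | succ j ih =>
    obtain ⟨v', z', c, ih⟩ := ih
    refine ⟨v + v' + x * v * v' - r ^ d * z', z * (1 + x * v'),
      c * r ^ (d + 1) + (-P) ^ j * (1 + x * v'), ?_⟩
    rw [show (j + 1) * (d + 1) + 1 = j * (d + 1) + 1 + (d + 1) by ring, pow_add, ih]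
    linear_combination (-(-P) ^ j * (1 + x * v')) * h

theorem geom_unit (y : R) (n : ℕ) : ∃ g, ∑ i ∈ range n, (1 + y) ^ i = n + y * g := by
  induction n with
  | zero => exact ⟨0, by simp⟩
  | succ n ih =>
    obtain ⟨g, h⟩ := ih
    refine ⟨g + ∑ i ∈ range n, (1 + y) ^ i, ?_⟩
    rw [sum_range_succ]
    push_cast
    linear_combination h - mul_geom_sum (1 + y) n

def H (N d : ℕ) : Prop := ∃ c w : R, x ^ N = x ^ (N + 1) * c + d * w

theorem H_cop {N a b : ℕ} (h : a.Coprime b) (h1 : ∃ c w : R, a * x ^ N = x ^ (N + 1) * c + b * w) :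
    H x N b := by
  obtain ⟨u, v, e⟩ := Nat.Coprime.cast (R := R) h
  obtain ⟨c, w, h1⟩ := h1
  exact ⟨u * c, u * w + v * x ^ N, by linear_combination u * h1 - x ^ N * e⟩

theorem H_mono {N M d : ℕ} (h : N ≤ M) (h1 : H x N d) : H x M d := by
  obtain ⟨k, rfl⟩ := Nat.exists_eq_add_of_le h
  obtain ⟨c, w, h1⟩ := h1
  exact ⟨c, w * x ^ k, by linear_combination x ^ k * h1⟩

def f (p e n : ℕ) : ℕ :=
  if Odd n then (if p = 2 then e else 0)
  else if p ∣ n then p ^ (n.factorization p - 1) * (e * (p - 1) + 1) else 1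

theorem split {p n : ℕ} (hp : p.Prime) (hn : 0 < n) (h : p ∣ n) :
    ∃ n', n = p ^ (n.factorization p - 1) * p * n' ∧ n'.Coprime p := by
  refine ⟨n / p ^ n.factorization p, ?_, (Nat.coprime_ordCompl hp hn.ne').symm⟩
  rw [← pow_succ, Nat.sub_add_cancel ((hp.dvd_iff_one_le_factorization hn.ne').1 h),
    Nat.ordProj_mul_ordCompl_eq_self]

theorem H_pp {n p : ℕ} (hn : 0 < n) (hx : (1 + x) ^ n = (-1) ^ n) (hp : p.Prime) (e : ℕ) :
    H x (f p e n) (p ^ e) := by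
  obtain ⟨g, hg⟩ := geom_unit x n
  have h0 := mul_geom_sum (1 + x) n
  unfold f
  split_ifs with h1 h2 h3
  · subst h2
    obtain ⟨k, rfl⟩ := h1
    have h4 := mul_geom_sum (-(1 + x)) (2 * k + 1)
    rw [neg_pow, hx, ← mul_pow] at h4
    obtain ⟨g', hg'⟩ : ∃ g', (∑ i ∈ range (2 * k + 1), (-(1 + x)) ^ i) ^ e = 1 + x * g' := by
      obtain ⟨a, ha⟩ : x ∣ ∑ i ∈ range (2 * k + 1), (-(1 + x)) ^ i -
          ∑ i ∈ range (2 * k + 1), (-1 : R) ^ i := by
        rw [← sum_sub_distrib]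
        exact dvd_sum fun i _ => (Dvd.intro (-1) (by ring)).trans (sub_dvd_pow_sub_pow _ _ i)
      rw [neg_one_geom_sum, if_neg (by simp), sub_eq_iff_eq_add'] at ha
      obtain ⟨b, hb⟩ := sub_dvd_pow_sub_pow (1 + x * a) 1 e
      exact ⟨a * b, by rw [ha]; linear_combination hb - one_pow (M := R) e⟩
    have h5 : x * ∑ i ∈ range (2 * k + 1), (-(1 + x)) ^ i =
        2 * -∑ i ∈ range (2 * k + 1), (-(1 + x)) ^ i := by
      simp only [mul_neg, mul_one, neg_neg, one_pow] at h4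
      linear_combination -h4
    have h6 := congrArg (· ^ e) h5
    simp only [mul_pow, hg'] at h6
    exact ⟨-g', (-∑ i ∈ range (2 * k + 1), (-(1 + x)) ^ i) ^ e, by
      push_cast; linear_combination h6⟩
  · rw [hx, h1.neg_one_pow] at h0
    exact H_cop x (((Nat.coprime_primes Nat.prime_two hp).2 (Ne.symm h2)).pow_right e)
      ⟨-∑ i ∈ range n, (1 + x) ^ i, 0, by push_cast; linear_combination h0⟩
  · obtain ⟨n', e1, e2⟩ := split hp hn h3
    generalize n.factorization p - 1 = k at e1 ⊢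
    obtain ⟨v, z, c, h⟩ := inv x hp k e
    have h4 := mul_geom_sum ((1 + x) ^ (p ^ k * p)) n'
    rw [← pow_mul, ← e1, hx, (Nat.not_odd_iff_even.1 h1).neg_one_pow] at h4
    obtain ⟨a, ha⟩ := sub_dvd_pow_sub_pow (1 + x) 1 (p ^ k * p)
    obtain ⟨b, hb⟩ := geom_unit (x * a) n'
    rw [show 1 + x * a = (1 + x) ^ (p ^ k * p) by rw [one_pow] at ha; linear_combination -ha] at hb
    refine H_cop x (e2.pow_right e) ⟨-(a * b), (-1) ^ e * (x ^ p ^ k * (1 + x * v) + p * x * z) *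
      ∑ i ∈ range n', ((1 + x) ^ (p ^ k * p)) ^ i, ?_⟩
    rw [neg_pow] at h
    push_cast
    linear_combination (∑ i ∈ range n', ((1 + x) ^ (p ^ k * p)) ^ i) * h + c * h4 -
      x ^ (p ^ k * (e * (p - 1) + 1)) * hb
  · rw [hx, (Nat.not_odd_iff_even.1 h1).neg_one_pow, hg] at h0
    exact H_cop x (((Nat.Prime.coprime_iff_not_dvd hp).2 h3).symm.pow_right e)
      ⟨-g, 0, by linear_combination h0⟩

theorem upper {m n N : ℕ} (hm : 0 < m) (hn : 0 < n) (hx : (1 + x) ^ n = (-1) ^ n) (h0 : (m : R) = 0)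
    (hN : ∀ p ∈ m.primeFactors, f p (m.factorization p) n ≤ N) : ∃ c, x ^ N = x ^ (N + 1) * c := by
  have : ∀ d, d ∣ m → H x N d := by
    intro d
    induction d using Nat.recOnPosPrimePosCoprime with
    | prime_pow p e hp he =>
      intro h
      obtain ⟨c, w, h1⟩ := H_mono x (hN p (Nat.mem_primeFactors.2
        ⟨hp, (dvd_pow_self p he.ne').trans h, hm.ne'⟩)) (H_pp x hn hx hp _)
      obtain ⟨k, hk⟩ := Nat.exists_eq_add_of_le ((hp.pow_dvd_iff_le_factorization hm.ne').1 h)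
      exact ⟨c, p ^ k * w, by rw [h1, hk]; push_cast; ring⟩
    | zero => intro h; exact absurd (zero_dvd_iff.1 h) hm.ne'
    | one => exact fun _ => ⟨0, x ^ N, by simp⟩
    | coprime a b _ _ h iha ihb =>
      intro hd
      obtain ⟨c, w, h1⟩ := iha ((dvd_mul_right a b).trans hd)
      obtain ⟨c', w', h2⟩ := ihb ((dvd_mul_left b a).trans hd)
      obtain ⟨u, v, e⟩ := Nat.Coprime.cast (R := R) h
      exact ⟨u * a * c' + v * b * c, u * w' + v * w, by
        push_cast; linear_combination u * a * h2 + v * b * h1 - x ^ N * e⟩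
  obtain ⟨c, w, h⟩ := this m dvd_rfl
  exact ⟨c, by rw [h, h0, zero_mul, add_zero]⟩

theorem lower {n p j m' : ℕ} (hn : 0 < n) (hx : (1 + x) ^ n = (-1) ^ n) (hp : p.Prime)
    (h0 : ((p ^ (j + 1) * m' : ℕ) : R) = 0) (h : 1 < f p (j + 1) n) :
    ∃ (a : R) (ε : ℤ), x ^ f p (j + 1) n * a = 0 ∧
      x ^ (f p (j + 1) n - 1) * a = ((-p) ^ j * m' : ℤ) * ∑ i ∈ range n, (ε * (1 + x)) ^ i := by
  push_cast at h0 ⊢
  unfold f at h ⊢
  split_ifs at h ⊢ with h1 h2 h3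
  · subst h2
    have h4 := mul_geom_sum (-(1 + x)) n
    rw [neg_pow, hx, ← mul_pow] at h4
    have h5 : ∀ i, x ^ i * ∑ i ∈ range n, (-(1 + x)) ^ i =
        (-2) ^ i * ∑ i ∈ range n, (-(1 + x)) ^ i := by
      simp only [mul_neg, mul_one, neg_neg, one_pow] at h4
      intro i
      induction i with
      | zero => simp
      | succ i ih => linear_combination x * ih - (-2) ^ i * h4
    refine ⟨m' * ∑ i ∈ range n, (-(1 + x)) ^ i, -1, ?_, ?_⟩
    · have := h5 (j + 1)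
      rw [neg_pow 2] at this
      push_cast at h0
      linear_combination m' * this + ((-1) ^ (j + 1) * ∑ i ∈ range n, (-(1 + x)) ^ i) * h0
    · simp only [Int.cast_neg, Int.cast_one, neg_mul, one_mul, Nat.add_sub_cancel]
      push_cast
      linear_combination m' * h5 j
  · omega
  · obtain ⟨n', e1, e2⟩ := split hp hn h3
    generalize n.factorization p - 1 = k at e1 ⊢
    have h4 := mul_geom_sum ((1 + x) ^ (p ^ k * p)) n'
    rw [← pow_mul, ← e1, hx, (Nat.not_odd_iff_even.1 h1).neg_one_pow] at h4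
    refine ⟨m' * ∑ i ∈ range n', ((1 + x) ^ (p ^ k * p)) ^ i, 1, ?_, ?_⟩
    · obtain ⟨v, z, c, h⟩ := inv x hp k (j + 1)
      rw [neg_pow] at h
      linear_combination (m' * ∑ i ∈ range n', ((1 + x) ^ (p ^ k * p)) ^ i) * h + c * m' * h4 +
        ((-1) ^ (j + 1) * (x ^ p ^ k * (1 + x * v) + p * x * z) *
          ∑ i ∈ range n', ((1 + x) ^ (p ^ k * p)) ^ i) * h0
    · obtain ⟨v, z, c, h5⟩ := inv x hp k j
      obtain ⟨v', z', h6⟩ := base x hp k
      obtain ⟨g, h7⟩ := geo x hp k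
      have h8 : ∑ i ∈ range n, (1 + x) ^ i = (∑ i ∈ range (p ^ k * p), (1 + x) ^ i) *
          ∑ i ∈ range n', ((1 + x) ^ (p ^ k * p)) ^ i := by
        rw [e1]
        clear e1 e2 h4
        induction n' with
        | zero => simp
        | succ t ih =>
          rw [Nat.mul_succ, sum_range_add, ih, sum_range_succ, mul_add, ← pow_mul]
          simp only [pow_add, ← mul_sum]
          ring
      obtain ⟨d, rfl⟩ := Nat.exists_eq_add_of_le' hp.two_le
      obtain ⟨t, ht⟩ := Nat.exists_eq_add_of_le' (Nat.mul_pos (Nat.one_le_pow k _ hp.pos)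
        (Nat.succ_pos d))
      have a1 : (d + 2) ^ k * ((j + 1) * (d + 2 - 1) + 1) - 1 =
          (d + 2) ^ k * (j * (d + 2 - 1) + 1) + t := by
        refine Nat.sub_eq_of_eq_add ?_
        simp only [Nat.succ_eq_add_one, show d + 2 - 1 = d + 1 from rfl] at ht ⊢
        linear_combination ht
      have a2 : (d + 2) ^ k * (d + 2) = (d + 2) ^ k + t + 1 := by
        simp only [Nat.succ_eq_add_one] at ht
        linear_combination ht
      have a3 : x ^ ((d + 2) ^ k * (d + 2) - 1) = x ^ (d + 2) ^ k * x ^ t := by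
        rw [a2, Nat.add_sub_cancel, pow_add]
      have a4 : x ^ ((d + 2) ^ k * (d + 2)) = x ^ (d + 2) ^ k * x ^ t * x := by
        rw [a2, pow_succ, pow_add]
      simp only [Int.cast_one, one_mul]
      rw [a1, pow_add, h5, h8, neg_pow]
      rw [a3] at h7
      rw [a4] at h6
      generalize ∑ i ∈ range n', ((1 + x) ^ ((d + 2) ^ k * (d + 2))) ^ i = G at h4 ⊢
      generalize ((d + 2 : ℕ) : R) = P at h0 h6 h7 ⊢
      linear_combination (c * x ^ t * m' + (-1) ^ j * P ^ j * m' * v) * h4 +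
        ((-1) ^ j * P ^ j * m' * G) * h7 - ((-1) ^ j * P ^ j * m' * G * v) * h6 +
        ((-1) ^ j * G * (g + x * z * x ^ t - v * (x ^ (d + 2) ^ k * (1 + x * v') + P * x * z'))) * h0
  · omega

end Pool.Agent.H.MP_6a5936_nt.A
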